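import Mathlib
import Pool.Agent.T6.H18.Fork.Lower

set_option autoImplicit false

namespace Pool.Agent.Results.MP_fad78f_co.OrderOfMagnitude

/-- The fork: the tree with vertices `0, 1, 2, 3, 4` and edges `01, 02, 03, 34`. -/
def fork : SimpleGraph (Fin 5) := SimpleGraph.fromEdgeSet {s(0, 1), s(0, 2), s(0, 3), s(3, 4)}

/-- `G` is (fork, `4K₁`)-free: it has no induced fork and no four pairwise non-adjacent
vertices. -/
def InClass {V : Type} (G : SimpleGraph V) : Prop :=
  IsEmpty (fork ↪g G) ∧ IsEmpty ((⊥ : SimpleGraph (Fin 4)) ↪g G)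

/-- The set of the chromatic numbers of the finite (fork, `4K₁`)-free graphs with clique
number `k`; its greatest element is `f*(k)`. -/
def Values (k : ℕ) : Set ℕ := {c | ∃ (V : Type) (_ : Finite V) (G : SimpleGraph V),
  InClass G ∧ G.cliqueNum = k ∧ G.chromaticNumber = c}

/-- The smallest χ-binding function `f*` of the (fork, `4K₁`)-free graphs satisfies
`(R(3, k+1) - 1) / 2 ≤ f*(k) ≤ C k² / log k` for all `k ≥ 2`. -/
theorem result : ∃ C : ℝ, 0 < C ∧ ∀ k : ℕ, 2 ≤ k → ∃ m : ℕ, IsGreatest (Values k) m ∧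
    (∀ (n : ℕ) (T : SimpleGraph (Fin n)), T.CliqueFree 3 → T.indepNum ≤ k → n ≤ 2 * m) ∧
    (m : ℝ) ≤ C * ((k : ℝ) ^ 2 / Real.log k) :=
  ⟨240, by norm_num, Pool.Agent.T6.H18.Fork.main⟩

end Pool.Agent.Results.MP_fad78f_co.OrderOfMagnitude
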